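import Pool.Agent.Y45.PV.Stm

/-!
Commutative groups of exponent `p * q`, and their quasi-identities.
-/

set_option autoImplicit false

namespace Pool.Agent.Y38.PV

open Pool.Agent.Y45.PV

theorem exists_fun' (p : ℕ) (hp : p.Prime) {V : Type} [AddCommGroup V] [Module (ZMod p) V]
    (v : V) (hv : v ≠ 0) : ∃ f : V →+ ZMod p, f v ≠ 0 := by
  have : Fact p.Prime := ⟨hp⟩
  have h : ∃ f : Module.Dual (ZMod p) V, f v ≠ 0 := by
    by_contra hcon
    push Not at hcon
    exact hv ((Module.forall_dual_apply_eq_zero_iff (ZMod p) _).mp hcon)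
  obtain ⟨f, hf⟩ := h
  exact ⟨f.toAddMonoidHom, hf⟩

theorem exists_fun (p : ℕ) (hp : p.Prime) {V : Type} [AddCommGroup V] (hV : ∀ v : V, p • v = 0)
    (v : V) (hv : v ≠ 0) : ∃ f : V →+ ZMod p, f v ≠ 0 :=
  @exists_fun' p hp V _ (AddCommGroup.zmodModule hV) v hv

theorem ab_aux (p q : ℕ) (hp : p.Prime) (B : Type) [CommGroup B]
    (hB : ∀ b : B, b ^ (p * q) = 1) (b : B) (hb : b ^ q ≠ 1) :
    ∃ φ : B →* Multiplicative (ZMod p), φ b ≠ 1 := by
  have : Fact p.Prime := ⟨hp⟩
  -- the elements killed by `p`
  let V : AddSubgroup (Additive B) := (nsmulAddMonoidHom p : Additive B →+ Additive B).ker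
  have hV : ∀ v : V, p • v = 0 := by
    intro v
    apply Subtype.ext
    exact v.2
  have hmem : ∀ y : B, q • (Additive.ofMul y) ∈ V := by
    intro y
    change p • (q • Additive.ofMul y) = 0
    rw [← mul_nsmul']
    have := hB y
    rw [← ofMul_pow, this]
    rfl
  let P : Additive B →+ V := (nsmulAddMonoidHom q : Additive B →+ Additive B).codRestrict V
    (fun y => hmem y.toMul)
  have hv : P (Additive.ofMul b) ≠ 0 := by
    intro h
    apply hb
    have h1 : (P (Additive.ofMul b) : Additive B) = 0 := by rw [h]; rfl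
    have h2 : q • (Additive.ofMul b) = 0 := h1
    rw [← ofMul_pow] at h2
    exact h2
  obtain ⟨f, hf⟩ := exists_fun p hp hV _ hv
  refine ⟨{ toFun := fun y => Multiplicative.ofAdd (f (P (Additive.ofMul y)))
            map_one' := ?_
            map_mul' := ?_ }, ?_⟩
  · rw [ofMul_one, map_zero, map_zero, ofAdd_zero]
  · intro x y
    rw [ofMul_mul, map_add, map_add, ofAdd_add]
  · intro h
    apply hf
    exact Multiplicative.ofAdd.injective h

theorem abStmt : AbStmt := by
  intro p q hp hq hpq B _ hB b hb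
  have hco : Nat.Coprime p q := (Nat.coprime_primes hp hq).mpr hpq
  by_cases h1 : b ^ q = 1
  · by_cases h2 : b ^ p = 1
    · exfalso
      apply hb
      have h3 : orderOf b ∣ p := orderOf_dvd_of_pow_eq_one h2
      have h4 : orderOf b ∣ q := orderOf_dvd_of_pow_eq_one h1
      have h5 : orderOf b ∣ 1 := by
        rw [← hco]
        exact Nat.dvd_gcd h3 h4
      exact orderOf_eq_one_iff.mp (Nat.dvd_one.mp h5)
    · right
      exact ab_aux q p hq B (fun y => by rw [mul_comm]; exact hB y) b h2
  · left
    exact ab_aux p q hp B hB b h1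

theorem exists_inj {G : Type} [Group G] (x : G) :
    ∃ φ : Multiplicative (ZMod (orderOf x)) →* G, Function.Injective φ := by
  have hc : Nat.card (Subgroup.zpowers x) = orderOf x := Nat.card_zpowers x
  obtain ⟨e⟩ : Nonempty (Multiplicative (ZMod (Nat.card (Subgroup.zpowers x))) ≃*
    Subgroup.zpowers x) := ⟨zmodCyclicMulEquiv inferInstance⟩
  rw [hc] at e
  refine ⟨(Subgroup.zpowers x).subtype.comp e.toMonoidHom, ?_⟩
  exact (Subgroup.subtype_injective _).comp e.injective

theorem exists_inj' {G : Type} [Group G] {p : ℕ} (hp : p.Prime) {x : G} (h1 : x ≠ 1)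
    (h2 : x ^ p = 1) : ∃ φ : Multiplicative (ZMod p) →* G, Function.Injective φ := by
  have : Fact p.Prime := ⟨hp⟩
  have h3 := orderOf_eq_prime h2 h1
  rw [← h3]
  exact exists_inj x

/-- The laws of commutative groups of exponent `m`. -/
def Wm (m : ℕ) : Set (FreeGroup ℕ) :=
  {FreeGroup.of 0 * FreeGroup.of 1 * (FreeGroup.of 0)⁻¹ * (FreeGroup.of 1)⁻¹,
    (FreeGroup.of 0) ^ m}

theorem satL_Wm {m : ℕ} {G : Type} [Group G] :
    SatL (Wm m) G ↔ (∀ a b : G, a * b = b * a) ∧ ∀ g : G, g ^ m = 1 := by
  constructor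
  · intro h
    refine ⟨fun a b => ?_, fun g => ?_⟩
    · have := h _ (Or.inl rfl) (fun n => if n = 0 then a else b)
      simp only [map_mul, map_inv, FreeGroup.lift_apply_of] at this
      simp only [if_true, if_neg one_ne_zero] at this
      rw [mul_inv_eq_one, mul_inv_eq_iff_eq_mul] at this
      exact this
    · have := h _ (Or.inr rfl) (fun _ => g)
      simpa only [map_pow, FreeGroup.lift_apply_of] using this
  · rintro ⟨h1, h2⟩ w hw f
    rcases hw with rfl | hw
    · simp only [map_mul, map_inv, FreeGroup.lift_apply_of]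
      rw [mul_inv_eq_one, mul_inv_eq_iff_eq_mul]
      exact h1 _ _
    · rw [Set.mem_singleton_iff] at hw
      subst hw
      simp only [map_pow, FreeGroup.lift_apply_of]
      exact h2 _

theorem lift_hom {α : Type} {G H : Type} [Group G] [Group H] (φ : G →* H) (f : α → G)
    (w : FreeGroup α) : φ (FreeGroup.lift f w) = FreeGroup.lift (fun i => φ (f i)) w := by
  have : φ.comp (FreeGroup.lift f) = FreeGroup.lift (fun i => φ (f i)) := by
    ext i
    simp
  exact DFunLike.congr_fun this w

theorem abQStmt (hAb : AbStmt) : AbQStmt := by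
  classical
  intro p q hp hq hpq Q hQ
  have hco : Nat.Coprime p q := (Nat.coprime_primes hp hq).mpr hpq
  let m : ℕ := (if SatQ Q (Multiplicative (ZMod p)) then p else 1) *
    (if SatQ Q (Multiplicative (ZMod q)) then q else 1)
  refine ⟨Wm m, fun G _ => ?_⟩
  rw [satL_Wm]
  constructor
  · intro hG
    obtain ⟨hcomm, hexp⟩ := hQ G hG
    refine ⟨hcomm, fun g => ?_⟩
    have hP : ¬ SatQ Q (Multiplicative (ZMod p)) → ∀ g : G, g ^ q = 1 := by
      intro hn g
      by_contra hcon
      obtain ⟨φ, hφ⟩ := exists_inj' hp (x := g ^ q) hcon (by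
        rw [← pow_mul, mul_comm]
        exact hexp g)
      exact hn (SatQ.of_injective φ hφ hG)
    have hQ' : ¬ SatQ Q (Multiplicative (ZMod q)) → ∀ g : G, g ^ p = 1 := by
      intro hn g
      by_contra hcon
      obtain ⟨φ, hφ⟩ := exists_inj' hq (x := g ^ p) hcon (by
        rw [← pow_mul]
        exact hexp g)
      exact hn (SatQ.of_injective φ hφ hG)
    by_cases c1 : SatQ Q (Multiplicative (ZMod p)) <;>
      by_cases c2 : SatQ Q (Multiplicative (ZMod q))
    · simp only [m, if_pos c1, if_pos c2]
      exact hexp g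
    · simp only [m, if_pos c1, if_neg c2, mul_one]
      exact hQ' c2 g
    · simp only [m, if_neg c1, if_pos c2, one_mul]
      exact hP c1 g
    · simp only [m, if_neg c1, if_neg c2, one_mul, pow_one]
      have h3 : orderOf g ∣ p := orderOf_dvd_of_pow_eq_one (hQ' c2 g)
      have h4 : orderOf g ∣ q := orderOf_dvd_of_pow_eq_one (hP c1 g)
      have h5 : orderOf g ∣ 1 := by
        rw [← hco]
        exact Nat.dvd_gcd h3 h4
      exact orderOf_eq_one_iff.mp (Nat.dvd_one.mp h5)
  · rintro ⟨hcomm, hexp⟩ s hs f hf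
    by_contra hb
    let _ : CommGroup G := { (inferInstance : Group G) with mul_comm := hcomm }
    have hmd : m ∣ p * q := by
      apply Nat.mul_dvd_mul
      · split_ifs
        · exact dvd_rfl
        · exact one_dvd _
      · split_ifs
        · exact dvd_rfl
        · exact one_dvd _
    have hexp2 : ∀ g : G, g ^ (p * q) = 1 := by
      intro g
      obtain ⟨k, hk⟩ := hmd
      rw [hk, pow_mul, hexp g, one_pow]
    have fin : ∀ (r r' : ℕ), r.Prime → Nat.Coprime r r' →
        (¬ SatQ Q (Multiplicative (ZMod r)) → m ∣ r') →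
        ∀ φ : G →* Multiplicative (ZMod r), φ (FreeGroup.lift f s.2) ≠ 1 → False := by
      intro r r' hr hrr hm φ hφ
      by_cases c : SatQ Q (Multiplicative (ZMod r))
      · apply hφ
        rw [lift_hom]
        apply c s hs
        intro w hw
        rw [← lift_hom φ f w, hf w hw, map_one]
      · apply hφ
        obtain ⟨k, hk⟩ := hm c
        have h1 : (φ (FreeGroup.lift f s.2)) ^ r' = 1 := by
          rw [← map_pow, hk, pow_mul, hexp, one_pow, map_one]
        have h2 : (φ (FreeGroup.lift f s.2)) ^ r = 1 := by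
          generalize φ (FreeGroup.lift f s.2) = z
          have h3 : r • (Multiplicative.toAdd z) = 0 := by
            rw [nsmul_eq_mul, CharP.cast_eq_zero, zero_mul]
          have h4 : Multiplicative.toAdd (z ^ r) = 0 := by
            rw [toAdd_pow]
            exact h3
          exact Multiplicative.toAdd.injective h4
        have h3 := orderOf_dvd_of_pow_eq_one h2
        have h4 := orderOf_dvd_of_pow_eq_one h1
        have h5 : orderOf (φ (FreeGroup.lift f s.2)) ∣ 1 := by
          rw [← hrr]
          exact Nat.dvd_gcd h3 h4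
        exact orderOf_eq_one_iff.mp (Nat.dvd_one.mp h5)
    rcases hAb p q hp hq hpq G hexp2 _ hb with ⟨φ, hφ⟩ | ⟨φ, hφ⟩
    · refine fin p q hp hco (fun c => ?_) φ hφ
      simp only [m, if_neg c, one_mul]
      split_ifs
      · exact dvd_rfl
      · exact one_dvd _
    · refine fin q p hq hco.symm (fun c => ?_) φ hφ
      simp only [m, if_neg c, mul_one]
      split_ifs
      · exact dvd_rfl
      · exact one_dvd _

end Pool.Agent.Y38.PV
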