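import Pool.Agent.Y45.PV.Stm

/-!
The maximal quotient.
-/

set_option autoImplicit false

namespace Pool.Agent.Y38.PV.Pi

open Pool.Agent.Y45.PV

theorem lift_hom {α : Type} {G H : Type} [Group G] [Group H] (φ : G →* H) (f : α → G)
    (w : FreeGroup α) : φ (FreeGroup.lift f w) = FreeGroup.lift (fun i => φ (f i)) w := by
  have : φ.comp (FreeGroup.lift f) = FreeGroup.lift (fun i => φ (f i)) := by
    ext i
    simp
  exact DFunLike.congr_fun this w

/-- The ternary operation. -/
def pi3 (pw : FreeGroup (Fin 3)) {G : Type} [Group G] (a c y : G) : G :=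
  FreeGroup.lift ![a, c, y] pw

/-- The binary operation. -/
def op2 (w : FreeGroup (Fin 2)) {G : Type} [Group G] (a b : G) : G :=
  FreeGroup.lift ![a, b] w

theorem hom_pi3 (pw : FreeGroup (Fin 3)) {G H : Type} [Group G] [Group H] (φ : G →* H)
    (a c y : G) : φ (pi3 pw a c y) = pi3 pw (φ a) (φ c) (φ y) := by
  unfold pi3
  rw [lift_hom]
  congr 2
  funext i
  fin_cases i <;> rfl

theorem hom_op2 (w : FreeGroup (Fin 2)) {G H : Type} [Group G] [Group H] (φ : G →* H)
    (a b : G) : φ (op2 w a b) = op2 w (φ a) (φ b) := by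
  unfold op2
  rw [lift_hom]
  congr 2
  funext i
  fin_cases i <;> rfl

/-- Four values. -/
def four {G : Type} (a b c y : G) : ℕ → G
  | 0 => a
  | 1 => b
  | 2 => c
  | _ => y

theorem piStmt : PiStmt := by
  intro p q pw ep eq t R _ hp hq hpq hfrm hst T hT G _ hG hnab hK
  have : Fact p.Prime := ⟨hp⟩
  have : Fact q.Prime := ⟨hq⟩
  have law : ∀ w : FreeGroup ℕ, (∀ f : ℕ → R, FreeGroup.lift f w = 1) →
      ∀ f : ℕ → G, FreeGroup.lift f w = 1 := fun w hw => idt_of_thq hT hG hw
  -- values of pi in R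
  have pc : ∀ a c y : R, c * y = y * c → pi3 pw a c y = a := fun a c y h => hfrm R a c y h
  have pn : ∀ a c y : R, c * y ≠ y * c → pi3 pw a c y = 1 := fun a c y h => hst.pr a c y h
  let x0 : FreeGroup ℕ := FreeGroup.of 0
  let x1 : FreeGroup ℕ := FreeGroup.of 1
  let x2 : FreeGroup ℕ := FreeGroup.of 2
  let x3 : FreeGroup ℕ := FreeGroup.of 3
  have l0 : ∀ {H : Type} [Group H] (f : ℕ → H), FreeGroup.lift f x0 = f 0 :=
    fun f => FreeGroup.lift_apply_of
  have l1 : ∀ {H : Type} [Group H] (f : ℕ → H), FreeGroup.lift f x1 = f 1 :=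
    fun f => FreeGroup.lift_apply_of
  have l2 : ∀ {H : Type} [Group H] (f : ℕ → H), FreeGroup.lift f x2 = f 2 :=
    fun f => FreeGroup.lift_apply_of
  have l3 : ∀ {H : Type} [Group H] (f : ℕ → H), FreeGroup.lift f x3 = f 3 :=
    fun f => FreeGroup.lift_apply_of
  -- (1)
  have L1 : ∀ a b c y : G, pi3 pw (a * b) c y = pi3 pw a c y * pi3 pw b c y := by
    intro a b c y
    have h := law (pi3 pw (x0 * x1) x2 x3 * (pi3 pw x0 x2 x3 * pi3 pw x1 x2 x3)⁻¹) (by
      intro f
      simp only [map_mul, map_inv, hom_pi3, l0, l1, l2, l3]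
      by_cases hc : f 2 * f 3 = f 3 * f 2
      · rw [pc _ _ _ hc, pc _ _ _ hc, pc _ _ _ hc, mul_inv_cancel]
      · rw [pn _ _ _ hc, pn _ _ _ hc, pn _ _ _ hc]
        simp) (four a b c y)
    simp only [map_mul, map_inv, hom_pi3, l0, l1, l2, l3] at h
    exact mul_inv_eq_one.mp h
  -- (2)
  have L2 : ∀ a c y : G, pi3 pw (pi3 pw a c y) c y = pi3 pw a c y := by
    intro a c y
    have h := law (pi3 pw (pi3 pw x0 x2 x3) x2 x3 * (pi3 pw x0 x2 x3)⁻¹) (by
      intro f
      simp only [map_mul, map_inv, hom_pi3, l0, l2, l3]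
      by_cases hc : f 2 * f 3 = f 3 * f 2
      · rw [pc _ _ _ hc, pc _ _ _ hc, mul_inv_cancel]
      · rw [pn _ _ _ hc, pn _ _ _ hc]
        simp) (four a a c y)
    simp only [map_mul, map_inv, hom_pi3, l0, l2, l3] at h
    exact mul_inv_eq_one.mp h
  -- (3)
  have L3 : ∀ a b c y : G, pi3 pw a c y * (b * (pi3 pw b c y)⁻¹) =
      (b * (pi3 pw b c y)⁻¹) * pi3 pw a c y := by
    intro a b c y
    have h := law ((pi3 pw x0 x2 x3 * (x1 * (pi3 pw x1 x2 x3)⁻¹)) *
      ((x1 * (pi3 pw x1 x2 x3)⁻¹) * pi3 pw x0 x2 x3)⁻¹) (by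
      intro f
      simp only [map_mul, map_inv, hom_pi3, l0, l1, l2, l3]
      by_cases hc : f 2 * f 3 = f 3 * f 2
      · rw [pc _ _ _ hc, pc _ _ _ hc]
        simp
      · rw [pn _ _ _ hc, pn _ _ _ hc]
        simp) (four a b c y)
    simp only [map_mul, map_inv, hom_pi3, l0, l1, l2, l3] at h
    exact mul_inv_eq_one.mp h
  -- (4)
  have L4 : ∀ c y : G, pi3 pw (c * y * c⁻¹ * y⁻¹) c y = 1 := by
    intro c y
    have h := law (pi3 pw (x2 * x3 * x2⁻¹ * x3⁻¹) x2 x3) (by
      intro f
      simp only [map_mul, map_inv, hom_pi3, l2, l3]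
      by_cases hc : f 2 * f 3 = f 3 * f 2
      · rw [pc _ _ _ hc, hc]
        group
      · rw [pn _ _ _ hc]) (four c c c y)
    simp only [map_mul, map_inv, hom_pi3, l2, l3] at h
    exact h
  -- (5)
  have L5 : ∀ a : G, a ^ (p * q) = 1 := by
    intro a
    have h := law (x0 ^ (p * q)) (by
      intro f
      simp only [map_pow, l0]
      exact hst.exp _) (fun _ => a)
    simpa only [map_pow, l0] using h
  have one3 : ∀ c y : G, pi3 pw 1 c y = 1 := by
    intro c y
    have h := L1 1 1 c y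
    rw [mul_one] at h
    exact left_eq_mul.mp h
  -- pr
  have hpr : ∀ a c y : G, c * y ≠ y * c → pi3 pw a c y = 1 := by
    intro a c y hcy
    let π : G →* G := { toFun := fun a => pi3 pw a c y, map_one' := one3 c y,
                        map_mul' := fun a b => L1 a b c y }
    have hπ : ∀ a, π a = pi3 pw a c y := fun _ => rfl
    let κ : G →* G :=
      { toFun := fun a => a * (π a)⁻¹
        map_one' := by rw [map_one]; simp
        map_mul' := by
          intro a b
          have h := L3 a b c y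
          rw [← hπ a, ← hπ b] at h
          have h2 : (b * (π b)⁻¹) * (π a)⁻¹ = (π a)⁻¹ * (b * (π b)⁻¹) := by
            rw [mul_inv_eq_iff_eq_mul, mul_assoc, ← h, inv_mul_cancel_left]
          rw [map_mul, mul_inv_rev]
          calc a * b * ((π b)⁻¹ * (π a)⁻¹) = a * ((b * (π b)⁻¹) * (π a)⁻¹) := by group
            _ = a * ((π a)⁻¹ * (b * (π b)⁻¹)) := by rw [h2]
            _ = a * (π a)⁻¹ * (b * (π b)⁻¹) := by group }
    have hκ : ∀ a, κ a = a * (π a)⁻¹ := fun _ => rfl
    have hquot : SatQ T (G ⧸ κ.ker) :=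
      SatQ.of_injective (QuotientGroup.kerLift κ) (QuotientGroup.kerLift_injective κ) hG
    have hker : κ.ker = ⊥ := by
      by_contra hne
      have hab := hK κ.ker hne hquot
      have h1 := hab (QuotientGroup.mk c) (QuotientGroup.mk y)
      have h2 : ((c * y * c⁻¹ * y⁻¹ : G) : G ⧸ κ.ker) = 1 := by
        rw [QuotientGroup.mk_mul, QuotientGroup.mk_mul, QuotientGroup.mk_mul,
          QuotientGroup.mk_inv, QuotientGroup.mk_inv, h1]
        group
      rw [QuotientGroup.eq_one_iff, MonoidHom.mem_ker, hκ, hπ, L4, inv_one, mul_one] at h2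
      apply hcy
      rw [mul_inv_eq_one, mul_inv_eq_iff_eq_mul] at h2
      exact h2
    have h3 : κ (π a) = 1 := by
      rw [hκ, hπ, hπ, L2, mul_inv_cancel]
    have h4 : π a ∈ κ.ker := h3
    rw [hker, Subgroup.mem_bot] at h4
    exact h4
  -- the elements of order p and q
  have hord : ∀ (r : ℕ) (e : FreeGroup (Fin 2)), r.Prime →
      (∀ a b : R, a * b = b * a → FreeGroup.lift ![a, b] e = 1) →
      (∀ a b : R, a * b ≠ b * a →
        FreeGroup.lift ![a, b] e ≠ 1 ∧ (FreeGroup.lift ![a, b] e) ^ r = 1) →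
      ∃ g : G, orderOf g = r := by
    intro r e hr he1 he2
    have : Fact r.Prime := ⟨hr⟩
    obtain ⟨x, y, hxy⟩ := hnab
    have hpow : (op2 e x y) ^ r = 1 := by
      have h := law ((op2 e x0 x1) ^ r) (by
        intro f
        simp only [map_pow, hom_op2, l0, l1]
        by_cases hc : f 0 * f 1 = f 1 * f 0
        · have h6 : op2 e (f 0) (f 1) = 1 := he1 _ _ hc
          rw [h6, one_pow]
        · exact (he2 _ _ hc).2) (four x y y y)
      simp only [map_pow, hom_op2, l0, l1] at h
      exact h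
    have hne : op2 e x y ≠ 1 := by
      intro h1
      apply hxy
      have hs : (([op2 e x0 x1], x0 * x1 * (x1 * x0)⁻¹) : QI) ∈ Thq R := by
        intro f hf
        have h6 := hf (op2 e x0 x1) (by simp)
        simp only [hom_op2, l0, l1] at h6
        simp only [map_mul, map_inv, l0, l1]
        by_contra hcon
        refine (he2 (f 0) (f 1) (fun hc => hcon ?_)).1 h6
        rw [hc, mul_inv_cancel]
      have h := hG _ (hT hs) (four x y y y) (by
        intro w hw
        rw [List.mem_singleton] at hw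
        rw [hw]
        simp only [hom_op2, l0, l1]
        exact h1)
      simp only [map_mul, map_inv, l0, l1] at h
      exact mul_inv_eq_one.mp h
    exact ⟨_, orderOf_eq_prime hpow hne⟩
  refine ⟨L5, hnab, hpr, hord p ep hp hst.epc hst.epn, hord q eq hq hst.eqc hst.eqn, ?_⟩
  -- infinite
  obtain ⟨x, y, hxy⟩ := hnab
  refine Infinite.of_injective (fun i : ℕ => op2 (t i) x y) ?_
  intro i j hij
  by_contra hne
  apply hxy
  have hs : (([op2 (t i) x0 x1 * (op2 (t j) x0 x1)⁻¹], x0 * x1 * (x1 * x0)⁻¹) : QI) ∈ Thq R := by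
    intro f hf
    have h6 := hf _ (List.mem_singleton_self _)
    simp only [map_mul, map_inv, hom_op2, l0, l1] at h6
    simp only [map_mul, map_inv, l0, l1]
    by_contra hcon
    refine hst.inf (f 0) (f 1) (fun hc => hcon ?_) i j hne (mul_inv_eq_one.mp h6)
    rw [hc, mul_inv_cancel]
  have h := hG _ (hT hs) (four x y y y) (by
    intro w hw
    rw [List.mem_singleton] at hw
    rw [hw]
    simp only [map_mul, map_inv, hom_op2, l0, l1]
    exact mul_inv_eq_one.mpr hij)
  simp only [map_mul, map_inv, l0, l1] at h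
  exact mul_inv_eq_one.mp h

end Pool.Agent.Y38.PV.Pi
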